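import Pool.Agent.Helper72.AI.Stmts

set_option autoImplicit false

/-! Packet S_harea. -/

namespace Pool.Agent.Helper17.AI

open MeasureTheory AffInc

theorem det3_update (i : Fin 3) (P : ℝ × ℝ) : det3 (Function.update S0 i P) = lam P i := by
  fin_cases i
  · simp [det3, S0, lam]
    ring
  · simp [det3, S0, lam]
  · simp [det3, S0, lam]

theorem lam_T (X : Fin 3 → ℝ × ℝ) (p : ℝ × ℝ) (i : Fin 3) :
    lam (T X p) i = ∑ k, lam p k * lam (X k) i := by
  fin_cases i
  · simp [lam, T_fst, T_snd, Fin.sum_univ_three]
    ring
  · simp [lam, T_fst, T_snd, Fin.sum_univ_three]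
  · simp [lam, T_fst, T_snd, Fin.sum_univ_three]

theorem lam_S0 (k i : Fin 3) : lam (S0 k) i = if k = i then 1 else 0 := by
  fin_cases i <;> fin_cases k <;> simp [lam, S0]

theorem lam_T_update (i : Fin 3) (P p : ℝ × ℝ) :
    lam (T (Function.update S0 i P) p) i = lam p i * lam P i := by
  rw [lam_T, Finset.sum_eq_single i]
  · rw [Function.update_self]
  · intro k _ hk
    rw [Function.update_of_ne hk, lam_S0, if_neg hk, mul_zero]
  · intro h
    exact absurd (Finset.mem_univ i) h

theorem volume_line (i : Fin 3) : volume {p : ℝ × ℝ | lam p i = 0} = 0 := by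
  obtain ⟨j, hj⟩ : ∃ j : Fin 3, j ≠ i := by
    fin_cases i
    · exact ⟨1, by decide⟩
    · exact ⟨0, by decide⟩
    · exact ⟨0, by decide⟩
  have h1 : {p : ℝ × ℝ | lam p i = 0} ⊆ T (Function.update S0 i (S0 j)) '' Set.univ := by
    intro p hp
    refine ⟨p, Set.mem_univ _, ?_⟩
    have h2 : T (Function.update S0 i (S0 j)) p = T S0 p := by
      unfold T
      refine Finset.sum_congr rfl fun k _ => ?_
      by_cases hk : k = i
      · subst hk
        rw [show lam p k = 0 from hp, zero_smul, zero_smul]
      · rw [Function.update_of_ne hk]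
    rw [h2, T_S0]
  refine measure_mono_null h1 ?_
  rw [volume_T, det3_update, lam_S0, if_neg hj]
  simp

theorem volume_Tri : volume Tri = ENNReal.ofReal (1 / 2) := by
  have h := area_Tri
  unfold area at h
  have h1 : volume Tri ≠ ⊤ := by
    intro h2
    rw [h2] at h
    norm_num at h
  rw [← h, ENNReal.ofReal_toReal h1]

theorem isCompact_Tri : IsCompact Tri := by
  rw [Tri_eq_hull]
  exact (Set.finite_range S0).isCompact_convexHull (𝕜 := ℝ)

theorem pf_S_harea : S_harea := by
  intro K t hK hc ht hS hH hP
  choose P hPK hPl using hP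
  let X : Fin 3 → Fin 3 → ℝ × ℝ := fun i => Function.update S0 i (P i)
  let f : Option (Fin 3) → Set (ℝ × ℝ) := fun o => Option.elim o Tri (fun i => T (X i) '' Tri)
  have hTK : Tri ⊆ K := by
    intro p hp
    rw [← T_S0 p]
    exact hc.sum_mem (fun i _ => hp i) (lam_sum p) (fun i _ => hS i)
  have hXK : ∀ i, T (X i) '' Tri ⊆ K := by
    rintro i _ ⟨p, hp, rfl⟩
    refine hc.sum_mem (fun i _ => hp i) (lam_sum p) (fun k _ => ?_)
    by_cases hk : k = i
    · subst hk
      simp only [X, Function.update_self]
      exact hPK k
    · simp only [X, Function.update_of_ne hk]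
      exact hS k
  have hXl : ∀ i, ∀ q ∈ T (X i) '' Tri, lam q i ≤ 0 := by
    rintro i _ ⟨p, hp, rfl⟩
    rw [lam_T_update, hPl]
    have := hp i
    have := ht i
    nlinarith
  have hfK : ∀ o, f o ⊆ K := by
    intro o
    cases o with
    | none => exact hTK
    | some i => exact hXK i
  have hm : ∀ o, MeasurableSet (f o) := by
    intro o
    cases o with
    | none => exact isCompact_Tri.measurableSet
    | some i => exact (isCompact_Tri.image (T_continuous _)).measurableSet
  have hline : ∀ i, ∀ A B : Set (ℝ × ℝ), (∀ q ∈ A, q ∈ B → lam q i = 0) →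
      AEDisjoint volume A B := by
    intro i A B h
    refine measure_mono_null ?_ (volume_line i)
    rintro q ⟨h1, h2⟩
    exact h q h1 h2
  have hd : Pairwise (Function.onFun (AEDisjoint volume) f) := by
    intro a b hab
    cases a with
    | none =>
      cases b with
      | none => exact absurd rfl hab
      | some j =>
        refine hline j _ _ fun q h1 h2 => ?_
        exact le_antisymm (hXl j q h2) (h1 j)
    | some i =>
      cases b with
      | none =>
        refine hline i _ _ fun q h1 h2 => ?_
        exact le_antisymm (hXl i q h1) (h2 i)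
      | some j =>
        have hij : i ≠ j := fun h => hab (congrArg some h)
        refine hline i _ _ fun q h1 h2 => ?_
        have e1 := hXl i q h1
        have e2 := hXl j q h2
        have e3 := lam_sum q
        have e4 := fun k => (hH (hXK i h1) k).2
        rw [Fin.sum_univ_three] at e3
        have e5 := e4 0
        have e6 := e4 1
        have e7 := e4 2
        fin_cases i <;> fin_cases j <;> simp at e1 e2 hij ⊢ <;> linarith
  have h1 : volume (⋃ o, f o) = ∑' o, volume (f o) :=
    measure_iUnion₀ hd (fun o => (hm o).nullMeasurableSet)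
  have h2 : volume (⋃ o, f o) ≤ volume K := measure_mono (Set.iUnion_subset hfK)
  rw [h1, tsum_fintype, Fintype.sum_option] at h2
  have h3 : ∀ i, volume (f (some i)) = ENNReal.ofReal (t i * (1 / 2)) := by
    intro i
    change volume (T (X i) '' Tri) = _
    rw [volume_T, volume_Tri, det3_update, hPl, abs_neg, abs_of_nonneg (ht i),
      ENNReal.ofReal_mul (ht i)]
  have h4 : volume (f none) = ENNReal.ofReal (1 / 2) := volume_Tri
  simp only [h3, h4] at h2
  rw [← ENNReal.ofReal_sum_of_nonneg (fun i _ => by have := ht i; positivity),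
    ← ENNReal.ofReal_add (by norm_num)
      (Finset.sum_nonneg fun i _ => by have := ht i; positivity)] at h2
  have h5 := ENNReal.toReal_mono hK.measure_lt_top.ne h2
  rw [ENNReal.toReal_ofReal (by
    have : 0 ≤ ∑ i, t i * (1 / 2) := Finset.sum_nonneg fun i _ => by have := ht i; positivity
    linarith)] at h5
  rw [← Finset.sum_mul] at h5
  unfold area
  linarith

end Pool.Agent.Helper17.AI
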